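import Pool.Agent.Run7.h644.Main

/-!
Minimal quasi-attractors of endomorphisms of projective space which have an iterate fibred along a
flag of linear subspaces with steps of codimension at most two.
-/

set_option autoImplicit false

namespace Pool.Agent.Results.MP_f7684d_an.FibredFlags

open Run7.h644

/-- Let `f` be an endomorphism of degree `d ≥ 2` of the projective space of dimension `k`, and
suppose that the iterate `f^[N]`, with `N ≥ 1`, is fibred along the flag of linear subspaces
`L 0 ⊇ ... ⊇ L n`, with steps of codimension at most two. Then every minimal quasi-attractor of `f`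
which is disjoint from the last subspace (for instance every one, when `L n` is zero) is an
attracting set. -/
theorem result (k d N n : ℕ) (hd : 2 ≤ d) (hN : 1 ≤ N)
    (P : Fin (k + 1) → MvPolynomial (Fin (k + 1)) ℂ) (f : CP k → CP k) (hf : IsEndo d P f)
    (L : ℕ → Submodule ℂ (Fin (k + 1) → ℂ)) (hL : FibredFlag (f^[N]) n L)
    (Q : Set (CP k)) (hQ : MinimalQuasiAttractor f Q) (hdisj : Disjoint Q (lin (L n))) :
    AttractingSet f Q :=
  main hd hN hf hL hQ hdisj

end Pool.Agent.Results.MP_f7684d_an.FibredFlags
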